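import Pool.Agent.Y963.LP.Stm

set_option autoImplicit false

/-!
Project LP (helper963), jobs LP-CNT and LP-RET: counting the orbits of a permutation, and the
existence of the first return permutation.
-/

namespace Pool.Agent.Y337.LP

open Finset Pool.Agent.Y963.LP

/-- some positive power of `s` brings `d` back -/
theorem exists_back {D : Type} [Fintype D] [DecidableEq D] (s : Equiv.Perm D) (S : Finset D)
    (d : {d // d ∈ S}) : ∃ k : ℕ, 1 ≤ k ∧ (s ^ k) (d : D) ∈ S := by
  refine ⟨orderOf s, orderOf_pos s, ?_⟩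
  rw [pow_orderOf_eq_one]
  exact d.2

open Classical in
/-- the first return time -/
noncomputable def rtime {D : Type} [Fintype D] [DecidableEq D] (s : Equiv.Perm D) (S : Finset D)
    (d : {d // d ∈ S}) : ℕ := Nat.find (exists_back s S d)

theorem rtime_spec {D : Type} [Fintype D] [DecidableEq D] (s : Equiv.Perm D) (S : Finset D)
    (d : {d // d ∈ S}) : 1 ≤ rtime s S d ∧ (s ^ rtime s S d) (d : D) ∈ S := by
  classical
  exact Nat.find_spec (exists_back s S d)

theorem rtime_min {D : Type} [Fintype D] [DecidableEq D] (s : Equiv.Perm D) (S : Finset D)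
    (d : {d // d ∈ S}) (j : ℕ) (h1 : 1 ≤ j) (h2 : j < rtime s S d) : (s ^ j) (d : D) ∉ S := by
  classical
  intro h
  exact Nat.find_min (exists_back s S d) h2 ⟨h1, h⟩

/-- the first return map -/
noncomputable def rmap {D : Type} [Fintype D] [DecidableEq D] (s : Equiv.Perm D) (S : Finset D)
    (d : {d // d ∈ S}) : {d // d ∈ S} := ⟨(s ^ rtime s S d) (d : D), (rtime_spec s S d).2⟩

theorem rmap_aux {D : Type} [Fintype D] [DecidableEq D] (s : Equiv.Perm D) (S : Finset D)
    (d d' : {d // d ∈ S}) (h : rmap s S d = rmap s S d') (hk : rtime s S d ≤ rtime s S d') :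
    d = d' := by
  have h1 : (s ^ rtime s S d) (d : D) = (s ^ rtime s S d') (d' : D) := congrArg Subtype.val h
  obtain ⟨m, hm⟩ := Nat.exists_eq_add_of_le hk
  rw [hm, pow_add, Equiv.Perm.mul_apply] at h1
  have h2 : (d : D) = (s ^ m) (d' : D) := (s ^ rtime s S d).injective h1
  rcases Nat.eq_zero_or_pos m with h0 | h0
  · rw [h0, pow_zero, Equiv.Perm.one_apply] at h2
    exact Subtype.ext h2
  · exfalso
    have h3 := rtime_min s S d' m h0 (by
      have := (rtime_spec s S d).1
      omega)
    exact h3 (h2 ▸ d.2)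

theorem rmap_inj {D : Type} [Fintype D] [DecidableEq D] (s : Equiv.Perm D) (S : Finset D) :
    Function.Injective (rmap s S) := by
  intro d d' h
  rcases le_total (rtime s S d) (rtime s S d') with hk | hk
  · exact rmap_aux s S d d' h hk
  · exact (rmap_aux s S d' d h.symm hk).symm

/-- Existence of the induced permutation. -/
theorem ret : S_RET := by
  intro D _ _ s S
  refine ⟨Equiv.ofBijective (rmap s S) (Finite.injective_iff_bijective.1 (rmap_inj s S)), ?_⟩
  intro d
  refine ⟨rtime s S d, (rtime_spec s S d).1, ?_, fun j h1 h2 => rtime_min s S d j h1 h2⟩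
  rw [Equiv.ofBijective_apply]
  rfl

theorem four_card {D : Type} [DecidableEq D] (f : Equiv.Perm D)
    (h : ∀ d, f d ≠ d ∧ f (f d) ≠ d ∧ f (f (f d)) ≠ d) (d : D) :
    ({d, f d, f (f d), f (f (f d))} : Finset D).card = 4 := by
  obtain ⟨a1, a2, a3⟩ := h d
  have b1 : f d ≠ f (f d) := fun e => a1 (f.injective e).symm
  have b2 : f d ≠ f (f (f d)) := fun e => a2 (f.injective e).symm
  have b3 : f (f d) ≠ f (f (f d)) := fun e => b1 (f.injective e)
  rw [card_insert_of_notMem, card_insert_of_notMem, card_insert_of_notMem, card_singleton]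
  · simpa using b3
  · simp only [mem_insert, mem_singleton, not_or]
    exact ⟨b1, b2⟩
  · simp only [mem_insert, mem_singleton, not_or]
    exact ⟨a1.symm, a2.symm, a3.symm⟩

/-- one orbit -/
theorem orbit_card {D : Type} [DecidableEq D] (f : Equiv.Perm D) (B : Finset D)
    (h : ∀ d, f d ≠ d ∧ f (f d) ≠ d ∧ f (f (f d)) ≠ d)
    (hB : ∀ d, f (f (f (f d))) = d → d ∈ B ∨ f d ∈ B ∨ f (f d) ∈ B ∨ f (f (f d)) ∈ B)
    (d : D) (O : Finset D) (hd : d ∈ O) (hO : ∀ x ∈ O, f x ∈ O) :
    4 ≤ O.card ∧ 5 ≤ O.card + (O ∩ B).card := by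
  have m1 := hO d hd
  have m2 := hO _ m1
  have m3 := hO _ m2
  have m4 := hO _ m3
  have hsub : ({d, f d, f (f d), f (f (f d))} : Finset D) ⊆ O := by
    intro x hx
    simp only [mem_insert, mem_singleton] at hx
    rcases hx with rfl | rfl | rfl | rfl
    · exact hd
    · exact m1
    · exact m2
    · exact m3
  have hc := four_card f h d
  have h4 : 4 ≤ O.card := by
    rw [← hc]
    exact card_le_card hsub
  refine ⟨h4, ?_⟩
  rcases Nat.lt_or_ge 4 O.card with h5 | h5
  · omega
  · have he : ({d, f d, f (f d), f (f (f d))} : Finset D) = O :=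
      eq_of_subset_of_card_le hsub (by rw [hc]; exact h5)
    have hpos : 0 < (O ∩ B).card := by
      rw [card_pos]
      have m4' := m4
      rw [← he] at m4'
      simp only [mem_insert, mem_singleton] at m4'
      have e4 : f (f (f (f d))) = d := by
        rcases m4' with e | e | e | e
        · exact e
        · exact absurd (f.injective e) (h d).2.2
        · exact absurd (f.injective (f.injective e)) (h d).2.1
        · exact absurd (f.injective (f.injective (f.injective e))) (h d).1
      rcases hB d e4 with e | e | e | e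
      · exact ⟨_, mem_inter.2 ⟨hd, e⟩⟩
      · exact ⟨_, mem_inter.2 ⟨m1, e⟩⟩
      · exact ⟨_, mem_inter.2 ⟨m2, e⟩⟩
      · exact ⟨_, mem_inter.2 ⟨m3, e⟩⟩
    omega

/-- Counting orbits. -/
theorem cnt : S_CNT := by
  classical
  intro D _ _ f B h hB
  let Q := Quotient (Equiv.Perm.SameCycle.setoid f)
  let π : D → Q := fun d => Quotient.mk _ d
  have : Finite Q := Quotient.finite _
  let _ : Fintype Q := Fintype.ofFinite Q
  have horb : orbits f = Fintype.card Q := Nat.card_eq_fintype_card
  have hO : ∀ q : Q, 4 ≤ ((univ : Finset D).filter fun x => π x = q).card ∧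
      5 ≤ ((univ : Finset D).filter fun x => π x = q).card +
        (((univ : Finset D).filter fun x => π x = q) ∩ B).card := by
    intro q
    obtain ⟨d, rfl⟩ : ∃ d, π d = q := Quotient.exists_rep q
    refine orbit_card f B h hB d _ (mem_filter.2 ⟨mem_univ _, rfl⟩) ?_
    intro x hx
    rw [mem_filter] at hx ⊢
    refine ⟨mem_univ _, ?_⟩
    rw [← hx.2]
    apply Quotient.sound
    exact (Equiv.Perm.SameCycle.refl f x).apply_left
  have hD : Fintype.card D = ∑ q : Q, ((univ : Finset D).filter fun x => π x = q).card := by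
    rw [← card_univ]
    exact card_eq_sum_card_fiberwise (fun x _ => mem_coe.2 (mem_univ _))
  have hBc : B.card = ∑ q : Q, (((univ : Finset D).filter fun x => π x = q) ∩ B).card := by
    rw [card_eq_sum_card_fiberwise (f := π) (t := univ) (fun x _ => mem_coe.2 (mem_univ _))]
    refine sum_congr rfl fun q _ => ?_
    congr 1
    ext x
    simp only [mem_filter, mem_inter, mem_univ, true_and]
    tauto
  constructor
  · rw [horb, hD, ← card_univ, mul_comm, ← smul_eq_mul]
    exact card_nsmul_le_sum _ _ _ fun q _ => (hO q).1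
  · rw [horb, hD, hBc, ← sum_add_distrib, ← card_univ, mul_comm, ← smul_eq_mul]
    exact card_nsmul_le_sum _ _ _ fun q _ => (hO q).2

end Pool.Agent.Y337.LP
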