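import Pool.Agent.Y963.LP.Stm

set_option autoImplicit false

/-!
Project LP (helper963), job LP-COL: a minimal set of vertices which is not colourable from lists
with four colours.
-/

namespace Pool.Agent.Y337.LP

open Finset Pool.Agent.Y963.LP

/-- `W` can be coloured from the lists. -/
def Colb {V C : Type} (G : SimpleGraph V) (L : V → Finset C) (W : Finset V) : Prop :=
  ∃ c : V → C, (∀ v, c v ∈ L v) ∧ ∀ u ∈ W, ∀ v ∈ W, G.Adj u v → c u ≠ c v

/-- A four-cycle with lists of size two. -/
theorem four_cycle {C : Type} [DecidableEq C] {P Q R T : Finset C} (hP : 2 ≤ P.card)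
    (hQ : 2 ≤ Q.card) (hR : 2 ≤ R.card) (hT : 2 ≤ T.card) :
    ∃ y ∈ P, ∃ u ∈ Q, ∃ z ∈ R, ∃ w ∈ T, y ≠ u ∧ u ≠ z ∧ z ≠ w ∧ w ≠ y := by
  by_cases hd : ∃ x, x ∈ P ∧ x ∈ R
  · obtain ⟨x, hx, hx'⟩ := hd
    obtain ⟨u, hu⟩ : (Q.erase x).Nonempty := by
      rw [← card_pos]
      have := pred_card_le_card_erase (s := Q) (a := x)
      omega
    obtain ⟨w, hw⟩ : (T.erase x).Nonempty := by
      rw [← card_pos]
      have := pred_card_le_card_erase (s := T) (a := x)
      omega
    rw [mem_erase] at hu hw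
    exact ⟨x, hx, u, hu.2, x, hx', w, hw.2, hu.1.symm, hu.1, hw.1.symm, hw.1⟩
  · have hne : ∀ y ∈ P, ∀ z ∈ R, y ≠ z := fun y hy z hz e => hd ⟨y, hy, e ▸ hz⟩
    obtain ⟨y1, hy1, y2, hy2, hy⟩ := one_lt_card.1 (show 1 < P.card by omega)
    obtain ⟨z1, hz1, z2, hz2, hz⟩ := one_lt_card.1 (show 1 < R.card by omega)
    have key : ∀ S : Finset C, 2 ≤ S.card → ∀ a b a' b' : C, a ∈ P → b ∈ R → a' ∈ P → b' ∈ R →
        (a ≠ a' ∨ b ≠ b') → S ⊆ {a, b} → S ⊆ {a', b'} → False := by
      intro S hS a b a' b' ha hb ha' hb' hne' h1 h2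
      have hab : a ≠ b := hne a ha b hb
      have hab' : a' ≠ b' := hne a' ha' b' hb'
      have e1 : S = {a, b} := eq_of_subset_of_card_le h1 (by
        have := card_le_two (a := a) (b := b)
        omega)
      have e2 : S = {a', b'} := eq_of_subset_of_card_le h2 (by
        have := card_le_two (a := a') (b := b')
        omega)
      have m1 : a ∈ ({a', b'} : Finset C) := by
        rw [← e2, e1]
        exact mem_insert_self _ _
      have m2 : b ∈ ({a', b'} : Finset C) := by
        rw [← e2, e1]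
        exact mem_insert_of_mem (mem_singleton_self _)
      simp only [mem_insert, mem_singleton] at m1 m2
      have n1 : a ≠ b' := hne a ha b' hb'
      have n2 : a' ≠ b := hne a' ha' b hb
      rcases m1 with m1 | m1
      · rcases m2 with m2 | m2
        · exact n2 m2.symm
        · rcases hne' with h | h
          · exact h m1
          · exact h m2
      · exact n1 m1
    have good : ∃ y ∈ P, ∃ z ∈ R, ¬ Q ⊆ {y, z} ∧ ¬ T ⊆ {y, z} := by
      by_contra hcon
      push Not at hcon
      have c11 : Q ⊆ {y1, z1} ∨ T ⊆ {y1, z1} := by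
        by_cases h : Q ⊆ {y1, z1}
        · exact Or.inl h
        · exact Or.inr (hcon y1 hy1 z1 hz1 h)
      have c12 : Q ⊆ {y1, z2} ∨ T ⊆ {y1, z2} := by
        by_cases h : Q ⊆ {y1, z2}
        · exact Or.inl h
        · exact Or.inr (hcon y1 hy1 z2 hz2 h)
      have c21 : Q ⊆ {y2, z1} ∨ T ⊆ {y2, z1} := by
        by_cases h : Q ⊆ {y2, z1}
        · exact Or.inl h
        · exact Or.inr (hcon y2 hy2 z1 hz1 h)
      rcases c11 with a1 | a1 <;> rcases c12 with a2 | a2 <;> rcases c21 with a3 | a3
      · exact key Q hQ _ _ _ _ hy1 hz1 hy1 hz2 (Or.inr hz) a1 a2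
      · exact key Q hQ _ _ _ _ hy1 hz1 hy1 hz2 (Or.inr hz) a1 a2
      · exact key Q hQ _ _ _ _ hy1 hz1 hy2 hz1 (Or.inl hy) a1 a3
      · exact key T hT _ _ _ _ hy1 hz2 hy2 hz1 (Or.inl hy) a2 a3
      · exact key Q hQ _ _ _ _ hy1 hz2 hy2 hz1 (Or.inl hy) a2 a3
      · exact key T hT _ _ _ _ hy1 hz1 hy2 hz1 (Or.inl hy) a1 a3
      · exact key T hT _ _ _ _ hy1 hz1 hy1 hz2 (Or.inr hz) a1 a2
      · exact key T hT _ _ _ _ hy1 hz1 hy1 hz2 (Or.inr hz) a1 a2
    obtain ⟨y, hy, z, hz, hq, ht⟩ := good
    obtain ⟨u, hu, hu'⟩ := not_subset.1 hq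
    obtain ⟨w, hw, hw'⟩ := not_subset.1 ht
    simp only [mem_insert, mem_singleton, not_or] at hu' hw'
    exact ⟨y, hy, u, hu, z, hz, w, hw, fun e => hu'.1 e.symm, hu'.2, fun e => hw'.2 e.symm, hw'.1⟩

/-- Extension of a colouring. -/
theorem extend {V C : Type} [DecidableEq V] (G : SimpleGraph V) (L : V → Finset C)
    (W S : Finset V) (c d : V → C) (hc : ∀ v, c v ∈ L v) (hd : ∀ v ∈ S, d v ∈ L v)
    (h1 : ∀ u ∈ W \ S, ∀ v ∈ W \ S, G.Adj u v → c u ≠ c v)
    (h2 : ∀ u ∈ S, ∀ v ∈ S, G.Adj u v → d u ≠ d v)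
    (h3 : ∀ u ∈ S, ∀ v ∈ W \ S, G.Adj u v → d u ≠ c v) : Colb G L W := by
  refine ⟨fun v => if v ∈ S then d v else c v, ?_, ?_⟩
  · intro v
    by_cases hv : v ∈ S
    · simp only [hv, if_true]
      exact hd v hv
    · simp only [hv, if_false]
      exact hc v
  · intro u hu v hv huv
    by_cases hu' : u ∈ S <;> by_cases hv' : v ∈ S
    · simp only [hu', hv', if_true]
      exact h2 u hu' v hv' huv
    · simp only [hu', hv', if_true, if_false]
      exact h3 u hu' v (mem_sdiff.2 ⟨hv, hv'⟩) huv
    · simp only [hu', hv', if_true, if_false]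
      exact (h3 v hv' u (mem_sdiff.2 ⟨hu, hu'⟩) huv.symm).symm
    · simp only [hu', hv', if_false]
      exact h1 u (mem_sdiff.2 ⟨hu, hu'⟩) v (mem_sdiff.2 ⟨hv, hv'⟩) huv

/-- The reduced list of a vertex with two neighbours in `S`. -/
theorem reduced {V C : Type} [DecidableEq V] [DecidableEq C] (G : SimpleGraph V)
    [DecidableRel G.Adj] (L : V → Finset C) (hL : ∀ v, 4 ≤ (L v).card) (W S : Finset V)
    (c : V → C) (x a b : V) (ha : a ∈ W) (hb : b ∈ W) (haS : a ∈ S) (hbS : b ∈ S) (hab : a ≠ b)
    (hxa : G.Adj x a) (hxb : G.Adj x b) (hdeg : degIn G W x < 5) :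
    2 ≤ (L x \ ((W \ S).filter fun w => G.Adj x w).image c).card := by
  unfold degIn at hdeg
  have hsub : ((W \ S).filter fun w => G.Adj x w) ⊆ (W.filter fun w => G.Adj x w) \ {a, b} := by
    intro w hw
    rw [mem_filter, mem_sdiff] at hw
    rw [mem_sdiff, mem_filter]
    refine ⟨⟨hw.1.1, hw.2⟩, ?_⟩
    simp only [mem_insert, mem_singleton, not_or]
    constructor
    · rintro rfl
      exact hw.1.2 haS
    · rintro rfl
      exact hw.1.2 hbS
  have hab2 : ({a, b} : Finset V) ⊆ W.filter fun w => G.Adj x w := by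
    intro w hw
    simp only [mem_insert, mem_singleton] at hw
    rcases hw with rfl | rfl
    · exact mem_filter.2 ⟨ha, hxa⟩
    · exact mem_filter.2 ⟨hb, hxb⟩
  have hc1 := card_le_card hsub
  rw [card_sdiff_of_subset hab2, card_pair hab] at hc1
  have hc2 : (((W \ S).filter fun w => G.Adj x w).image c).card ≤
      ((W \ S).filter fun w => G.Adj x w).card := card_image_le
  have hc3 := le_card_sdiff (((W \ S).filter fun w => G.Adj x w).image c) (L x)
  have := hL x
  omega

theorem notMem_reduced {V C : Type} [DecidableEq V] [DecidableEq C] {G : SimpleGraph V}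
    [DecidableRel G.Adj] {L : V → Finset C} {W S : Finset V} {c : V → C} {x v : V} {y : C}
    (hy : y ∈ L x \ ((W \ S).filter fun w => G.Adj x w).image c) (hv : v ∈ W \ S)
    (hxv : G.Adj x v) : y ≠ c v := by
  rintro rfl
  exact (mem_sdiff.1 hy).2 (mem_image_of_mem c (mem_filter.2 ⟨hv, hxv⟩))

/-- A minimal set of vertices that is not colourable from lists with four colours. -/
theorem col : S_COL := by
  classical
  intro V C _ _ _ G _ L hL hno
  obtain ⟨W, hW, hmin⟩ : ∃ W ∈ (univ : Finset (Finset V)).filter fun W => ¬ Colb G L W,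
      ∀ W' ∈ (univ : Finset (Finset V)).filter fun W => ¬ Colb G L W, W.card ≤ W'.card := by
    refine exists_min_image _ _ ⟨univ, mem_filter.2 ⟨mem_univ _, ?_⟩⟩
    rintro ⟨c, h1, h2⟩
    exact hno ⟨c, h1, fun u v h => h2 u (mem_univ _) v (mem_univ _) h⟩
  rw [mem_filter] at hW
  have hbad : ¬ Colb G L W := hW.2
  have hsm : ∀ W' : Finset V, W'.card < W.card → Colb G L W' := by
    intro W' h
    by_contra hc
    have := hmin W' (mem_filter.2 ⟨mem_univ _, hc⟩)
    omega
  have hne : W.Nonempty := by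
    rw [nonempty_iff_ne_empty]
    rintro rfl
    refine hbad ⟨fun v => (card_pos.1 (show 0 < (L v).card by have := hL v; omega)).choose, ?_, ?_⟩
    · intro v
      exact (card_pos.1 (show 0 < (L v).card by have := hL v; omega)).choose_spec
    · intro u hu
      exact absurd hu (notMem_empty _)
  refine ⟨W, hne, ?_, ?_⟩
  · intro v hv
    by_contra hdeg
    obtain ⟨c, hc, hc'⟩ := hsm (W \ {v}) (by
      rw [card_sdiff_of_subset (singleton_subset_iff.2 hv), card_singleton]
      have := card_pos.2 hne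
      omega)
    unfold degIn at hdeg
    obtain ⟨x, hx, hx'⟩ : ∃ x ∈ L v, x ∉ (W.filter fun w => G.Adj v w).image c := by
      apply exists_mem_notMem_of_card_lt_card
      have h1 : ((W.filter fun w => G.Adj v w).image c).card ≤ (W.filter fun w => G.Adj v w).card :=
        card_image_le
      have h2 := hL v
      omega
    refine hbad (extend G L W {v} c (fun _ => x) hc ?_ hc' ?_ ?_)
    · intro u hu
      rw [mem_singleton] at hu
      rw [hu]
      exact hx
    · intro a ha b hb hab
      rw [mem_singleton] at ha hb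
      rw [ha, hb] at hab
      exact absurd hab (G.loopless.irrefl v)
    · intro a ha b hb hab e
      rw [mem_singleton] at ha
      rw [ha] at hab
      refine hx' ?_
      change x = c b at e
      rw [e]
      exact mem_image_of_mem c (mem_filter.2 ⟨(mem_sdiff.1 hb).1, hab⟩)
  · intro p q r t hp hq hr ht hpr hqt hpq hqr hrt htp npr nqt
    by_contra hdeg
    push Not at hdeg
    obtain ⟨dp, dq, dr, dt⟩ := hdeg
    have npq : p ≠ q := hpq.ne
    have nqr : q ≠ r := hqr.ne
    have nrt : r ≠ t := hrt.ne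
    have ntp : t ≠ p := htp.ne
    obtain ⟨c, hc, hc'⟩ := hsm (W \ {p, q, r, t}) (by
      apply card_lt_card
      rw [ssubset_iff_of_subset sdiff_subset]
      exact ⟨p, hp, fun h => (mem_sdiff.1 h).2 (mem_insert_self _ _)⟩)
    have mp : p ∈ ({p, q, r, t} : Finset V) := by simp
    have mq : q ∈ ({p, q, r, t} : Finset V) := by simp
    have mr : r ∈ ({p, q, r, t} : Finset V) := by simp
    have mt : t ∈ ({p, q, r, t} : Finset V) := by simp
    obtain ⟨y, hy, u, hu, z, hz, w, hw, e1, e2, e3, e4⟩ := four_cycle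
      (reduced G L hL W {p, q, r, t} c p q t hq ht mq mt hqt hpq htp.symm dp)
      (reduced G L hL W {p, q, r, t} c q p r hp hr mp mr hpr hpq.symm hqr dq)
      (reduced G L hL W {p, q, r, t} c r q t hq ht mq mt hqt hqr.symm hrt dr)
      (reduced G L hL W {p, q, r, t} c t p r hp hr mp mr hpr htp hrt.symm dt)
    set d : V → C := fun v => if v = p then y else if v = q then u else if v = r then z else w
      with hd
    have dpv : d p = y := by simp [hd]
    have dqv : d q = u := by simp [hd, npq.symm]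
    have drv : d r = z := by simp [hd, hpr.symm, nqr.symm]
    have dtv : d t = w := by simp [hd, ntp, hqt.symm, nrt.symm]
    refine hbad (extend G L W {p, q, r, t} c d hc ?_ hc' ?_ ?_)
    · intro v hv
      simp only [mem_insert, mem_singleton] at hv
      rcases hv with rfl | rfl | rfl | rfl
      · rw [dpv]; exact (mem_sdiff.1 hy).1
      · rw [dqv]; exact (mem_sdiff.1 hu).1
      · rw [drv]; exact (mem_sdiff.1 hz).1
      · rw [dtv]; exact (mem_sdiff.1 hw).1
    · intro a ha b hb hab
      simp only [mem_insert, mem_singleton] at ha hb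
      rcases ha with rfl | rfl | rfl | rfl <;> rcases hb with rfl | rfl | rfl | rfl <;>
        simp only [dpv, dqv, drv, dtv]
      · exact absurd hab (G.loopless.irrefl _)
      · exact e1
      · exact absurd hab npr
      · exact e4.symm
      · exact e1.symm
      · exact absurd hab (G.loopless.irrefl _)
      · exact e2
      · exact absurd hab nqt
      · exact absurd hab.symm npr
      · exact e2.symm
      · exact absurd hab (G.loopless.irrefl _)
      · exact e3
      · exact e4
      · exact absurd hab.symm nqt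
      · exact e3.symm
      · exact absurd hab (G.loopless.irrefl _)
    · intro a ha b hb hab
      simp only [mem_insert, mem_singleton] at ha
      rcases ha with rfl | rfl | rfl | rfl
      · rw [dpv]; exact notMem_reduced hy hb hab
      · rw [dqv]; exact notMem_reduced hu hb hab
      · rw [drv]; exact notMem_reduced hz hb hab
      · rw [dtv]; exact notMem_reduced hw hb hab

end Pool.Agent.Y337.LP
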